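import Pool.Agent.Q215.MB.Stm

set_option autoImplicit false

open Set Topology Filter

namespace Pool.Agent.Q186.MB

open Pool.Agent.Q215.WR (Two)
open Pool.Agent.Q215.MB

theorem Pc.core {l : ℝ → ℕ} {j i : ℕ} {P : Set ℝ} (h : Pc l j i P) : Core l i P := by
  cases j with
  | zero => exact h
  | succ j => exact h.1

/-- the Baire step -/
theorem baire_step {l l' : ℝ → ℕ} (hl : FS l) (hl' : FS l')
    (ho : ∀ x, Odd (l x) ↔ Odd (l' x)) {i : ℕ} {P : Set ℝ} (hP : Core l i P)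
    (hi : ∀ x ∈ P, i ≤ l' x + 1) :
    ∃ u v : ℝ, (P ∩ Ioo u v).Nonempty ∧ ∀ x ∈ P ∩ Ioo u v, i ≤ l' x := by
  obtain ⟨hK, hne, hge, M, hMc, hMP, hM, hcl⟩ := hP
  obtain ⟨H, hH, hHu⟩ := hl (i + 1)
  obtain ⟨H', hH', hHu'⟩ := hl' i
  have : CompactSpace P := isCompact_iff_compactSpace.1 hK
  have : Nonempty P := hne.to_subtype
  let f : ℕ ⊕ ℕ → Set P := fun s => match s with
    | Sum.inl m => (Subtype.val : P → ℝ) ⁻¹' H m
    | Sum.inr m => (Subtype.val : P → ℝ) ⁻¹' H' m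
  have hf : ∀ s, IsClosed (f s) := by
    rintro (m | m)
    · exact (hH m).preimage continuous_subtype_val
    · exact (hH' m).preimage continuous_subtype_val
  have hcov : (⋃ s, f s) = univ := by
    rw [eq_univ_iff_forall]
    rintro ⟨x, hx⟩
    by_cases hx1 : i + 1 ≤ l x
    · have : x ∈ ⋃ m, H m := by rw [hHu]; exact hx1
      obtain ⟨m, hm⟩ := mem_iUnion.1 this
      exact mem_iUnion.2 ⟨Sum.inl m, hm⟩
    · have h1 : l x = i := le_antisymm (by omega) (hge x hx)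
      have h2 : i ≤ l' x := by
        by_contra hlt
        have h3 := hi x hx
        have h4 : i = l' x + 1 := by omega
        have h5 := ho x
        rw [h1, h4, Nat.odd_add_one] at h5
        tauto
      have : x ∈ ⋃ m, H' m := by rw [hHu']; exact h2
      obtain ⟨m, hm⟩ := mem_iUnion.1 this
      exact mem_iUnion.2 ⟨Sum.inr m, hm⟩
  obtain ⟨s, ⟨x, hx⟩, hxs⟩ := nonempty_interior_of_iUnion_of_closed hf hcov
  obtain ⟨t, hts, hto, hxt⟩ := mem_interior.1 hxs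
  obtain ⟨O, hO, rfl⟩ := isOpen_induced_iff.1 hto
  have hxO : x ∈ O := hxt
  obtain ⟨ε, hε, hball⟩ := Metric.isOpen_iff.1 hO x hxO
  rw [Real.ball_eq_Ioo] at hball
  refine ⟨x - ε, x + ε, ⟨x, hx, by linarith, by linarith⟩, ?_⟩
  rintro y ⟨hyP, hy⟩
  have hyO := hball hy
  rcases s with m | m
  · exfalso
    have hxc : x ∈ closure M := hcl hx
    obtain ⟨z, hzO, hzM⟩ := mem_closure_iff.1 hxc O hO hxO
    have hz : (⟨z, hMP hzM⟩ : P) ∈ f (Sum.inl m) := hts (show z ∈ O from hzO)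
    have hz' : z ∈ ⋃ m, H m := mem_iUnion.2 ⟨m, hz⟩
    rw [hHu] at hz'
    have h6 : i + 1 ≤ l z := hz'
    have h7 := (hM z hzM).1
    omega
  · have hz : (⟨y, hyP⟩ : P) ∈ f (Sum.inr m) := hts (show y ∈ O from hyO)
    have hz' : y ∈ ⋃ m, H' m := mem_iUnion.2 ⟨m, hz⟩
    rw [hHu'] at hz'
    exact hz'

theorem t_low : S_low := by
  intro l l' hl hl' ho j
  induction j with
  | zero =>
    intro i P hP hi
    obtain ⟨u, v, ⟨x, hx⟩, h⟩ := baire_step hl hl' ho (Pc.core hP) hi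
    exact ⟨x, h x hx⟩
  | succ j ih =>
    intro i P hP hi
    obtain ⟨u, v, hne, h⟩ := baire_step hl hl' ho (Pc.core hP) hi
    obtain ⟨Q, hQ, hQP⟩ := hP.2.2 u v hne
    obtain ⟨x, hx⟩ := ih (i + 1) Q hQP (fun x hx => by have := h x (hQ hx); omega)
    exact ⟨x, by omega⟩

end Pool.Agent.Q186.MB
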